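import Pool.Agent.Helper10.Width.Compact

/-!
# The bidual of a module with respect to the circle group
-/

universe u v w

namespace Pool.Agent.Helper10.Width

/-- The circle group. -/
abbrev Circ : Type := AddCircle (1 : ℝ)

/-- Homomorphisms to the circle group extend. -/
theorem exists_factor {P : Type v} {Q : Type w} [AddCommGroup P] [AddCommGroup Q] (A : P →+ Q)
    (w : P →+ Circ) (h : ∀ x, A x = 0 → w x = 0) : ∃ v : Q →+ Circ, v.comp A = w := by
  have hb : Module.Baer ℤ Circ := Module.Baer.of_divisible Circ
  obtain ⟨v, hv⟩ := hb.extension_property_addMonoidHom (QuotientAddGroup.kerLift A)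
    (QuotientAddGroup.kerLift_injective A) (QuotientAddGroup.lift A.ker w (fun x hx => h x hx))
  refine ⟨v, ?_⟩
  ext x
  have := DFunLike.congr_fun hv (x : P ⧸ A.ker)
  simpa using this

/-- The inclusion of `ℚ/ℤ` in the circle group. -/
noncomputable def ratCirc : AddCircle (1 : ℚ) →+ Circ :=
  QuotientAddGroup.map _ _ (Rat.castHom ℝ : ℚ →+ ℝ) (by
    intro q hq
    obtain ⟨n, hn⟩ := AddSubgroup.mem_zmultiples_iff.mp hq
    refine AddSubgroup.mem_comap.mpr (AddSubgroup.mem_zmultiples_iff.mpr ⟨n, ?_⟩)
    rw [← hn]
    simp)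

theorem ratCirc_injective : Function.Injective ratCirc := by
  rw [injective_iff_map_eq_zero]
  intro q
  induction q using QuotientAddGroup.induction_on with
  | H q =>
    intro hq
    have h1 : ((q : ℝ) : Circ) = 0 := hq
    rw [QuotientAddGroup.eq_zero_iff] at h1 ⊢
    obtain ⟨n, hn⟩ := AddSubgroup.mem_zmultiples_iff.mp h1
    refine AddSubgroup.mem_zmultiples_iff.mpr ⟨n, ?_⟩
    have : ((n • (1 : ℚ) : ℚ) : ℝ) = (q : ℝ) := by
      rw [← hn]; simp
    exact_mod_cast this

/-- Characters separate the points from the subgroups. -/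
theorem exists_char {P : Type v} [AddCommGroup P] (H : AddSubgroup P) {x : P} (hx : x ∉ H) :
    ∃ u : P →+ Circ, (∀ y ∈ H, u y = 0) ∧ u x ≠ 0 := by
  have h1 : (x : P ⧸ H) ≠ 0 := fun h => hx ((QuotientAddGroup.eq_zero_iff x).mp h)
  obtain ⟨c, hc⟩ := CharacterModule.exists_character_apply_ne_zero_of_ne_zero h1
  refine ⟨(ratCirc.comp c).comp (QuotientAddGroup.mk' H), fun y hy => ?_, fun h => hc ?_⟩
  · have : (QuotientAddGroup.mk' H y) = 0 := (QuotientAddGroup.eq_zero_iff y).mpr hy
    simp only [AddMonoidHom.comp_apply, this, map_zero]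
  · exact ratCirc_injective (by rw [map_zero]; exact h)

/-- The bidual of an abelian group with respect to the circle group. -/
def Bidual (M : Type v) [AddCommGroup M] : Type v := (M →+ Circ) →+ Circ

noncomputable instance (M : Type v) [AddCommGroup M] : AddCommGroup (Bidual M) :=
  inferInstanceAs (AddCommGroup ((M →+ Circ) →+ Circ))

instance (M : Type v) [AddCommGroup M] : FunLike (Bidual M) (M →+ Circ) Circ :=
  inferInstanceAs (FunLike ((M →+ Circ) →+ Circ) _ _)

instance (M : Type v) [AddCommGroup M] : AddMonoidHomClass (Bidual M) (M →+ Circ) Circ :=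
  inferInstanceAs (AddMonoidHomClass ((M →+ Circ) →+ Circ) _ _)

section

variable {M : Type v} [AddCommGroup M]

@[ext] theorem Bidual.ext {χ η : Bidual M} (h : ∀ u, χ u = η u) : χ = η := DFunLike.ext _ _ h

@[simp] theorem Bidual.add_apply (χ η : Bidual M) (u : M →+ Circ) : (χ + η) u = χ u + η u := rfl

@[simp] theorem Bidual.zero_apply (u : M →+ Circ) : (0 : Bidual M) u = 0 := rfl

@[simp] theorem Bidual.neg_apply (χ : Bidual M) (u : M →+ Circ) : (-χ) u = -(χ u) := rfl

theorem Bidual.sum_apply {ι : Type*} (s : Finset ι) (f : ι → Bidual M) (u : M →+ Circ) :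
    (∑ i ∈ s, f i) u = ∑ i ∈ s, f i u := by
  classical
  induction s using Finset.induction_on with
  | empty => simp
  | insert a s ha ih => rw [Finset.sum_insert ha, Finset.sum_insert ha, Bidual.add_apply, ih]

variable {S : Type u} [Ring S] [Module S M]

/-- Multiplication of characters by scalars. -/
def pre (s : S) (u : M →+ Circ) : M →+ Circ := u.comp (DistribSMul.toAddMonoidHom M s)

@[simp] theorem pre_apply (s : S) (u : M →+ Circ) (x : M) : pre s u x = u (s • x) := rfl

theorem pre_add (s : S) (u v : M →+ Circ) : pre s (u + v) = pre s u + pre s v := rfl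

theorem pre_zero (s : S) : pre s (0 : M →+ Circ) = 0 := rfl

noncomputable instance : Module S (Bidual M) where
  smul s χ := AddMonoidHom.mk' (fun u => χ (pre s u)) (fun u v => by
    rw [pre_add]; exact map_add χ _ _)
  one_smul χ := by
    ext u
    show χ (pre (1 : S) u) = χ u
    congr 1
    ext x
    simp
  mul_smul s t χ := by
    ext u
    show χ (pre (s * t) u) = χ (pre t (pre s u))
    congr 1
    ext x
    simp [mul_smul]
  smul_zero s := by ext u; rfl
  smul_add s χ η := by ext u; rfl
  add_smul s t χ := by
    ext u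
    show χ (pre (s + t) u) = χ (pre s u) + χ (pre t u)
    rw [← map_add]
    congr 1
    ext x
    simp [add_smul]
  zero_smul χ := by
    ext u
    show χ (pre (0 : S) u) = 0
    have : pre (0 : S) u = 0 := by ext x; simp
    rw [this, map_zero]

@[simp] theorem Bidual.smul_apply (s : S) (χ : Bidual M) (u : M →+ Circ) :
    (s • χ) u = χ (pre s u) := rfl

/-- The canonical homomorphism of a module to its bidual. -/
noncomputable def ev : M →ₗ[S] Bidual M where
  toFun x := AddMonoidHom.mk' (fun u : M →+ Circ => u x) (fun u v => rfl)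
  map_add' x y := by ext u; exact map_add u x y
  map_smul' s x := by ext u; rfl

@[simp] theorem ev_apply (x : M) (u : M →+ Circ) : (ev (S := S) x) u = u x := rfl

/-- The topology of pointwise convergence. -/
noncomputable instance : TopologicalSpace (Bidual M) :=
  TopologicalSpace.induced (fun χ => (fun u : M →+ Circ => χ u)) inferInstance

theorem continuous_coe : Continuous (fun (χ : Bidual M) (u : M →+ Circ) => χ u) :=
  continuous_induced_dom

theorem continuous_eval (u : M →+ Circ) : Continuous (fun χ : Bidual M => χ u) :=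
  (continuous_apply u).comp continuous_coe

theorem isClosedEmbedding_coe :
    Topology.IsClosedEmbedding (fun (χ : Bidual M) (u : M →+ Circ) => χ u) := by
  refine ⟨⟨⟨rfl⟩, fun χ η h => Bidual.ext fun u => congrFun h u⟩, ?_⟩
  exact AddMonoidHom.isClosed_range_coe (M →+ Circ) Circ

instance : T2Space (Bidual M) := isClosedEmbedding_coe.isEmbedding.t2Space

instance : CompactSpace (Bidual M) := isClosedEmbedding_coe.compactSpace

instance : ContinuousAdd (Bidual M) := by
  refine ⟨continuous_induced_rng.mpr ?_⟩
  refine continuous_pi fun u => ?_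
  exact ((continuous_eval u).comp continuous_fst).add ((continuous_eval u).comp continuous_snd)

instance : ContinuousConstSMul S (Bidual M) := by
  refine ⟨fun s => continuous_induced_rng.mpr ?_⟩
  exact continuous_pi fun u => continuous_eval (pre s u)

end

end Pool.Agent.Helper10.Width
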