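import Pool.Agent.Helper10.Width.Defs

/-!
# Compact modules are pure-injective
-/

universe u v w

namespace Pool.Agent.Helper10.Width

variable {S : Type u} [Ring S]

theorem sum_eq_sum_coe {B : Type*} {M : Type*} [AddCommGroup M] [Module S M] (r : B →₀ S)
    (U : Finset B) (h : r.support ⊆ U) (y : B → M) :
    r.sum (fun b s => s • y b) = ∑ b : U, r b.1 • y b.1 := by
  rw [Finsupp.sum_of_support_subset r h (fun b s => s • y b) (fun _ _ => zero_smul _ _)]
  exact (Finset.sum_coe_sort U (fun b => r b • y b)).symm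

section Compact

variable {N : Type v} [AddCommGroup N] [Module S N] [TopologicalSpace N] [CompactSpace N]
  [T2Space N] [ContinuousAdd N] [ContinuousConstSMul S N]

/-- In a compact module a possibly infinite system of linear equations is solvable if all its finite
subsystems are. -/
theorem exists_solution_of_finite {κ : Type w} (E : Set ((κ →₀ S) × N))
    (h : ∀ F : Finset ((κ →₀ S) × N), ↑F ⊆ E →
      ∃ y : κ → N, ∀ e ∈ F, e.1.sum (fun k s => s • y k) = e.2) :
    ∃ y : κ → N, ∀ e ∈ E, e.1.sum (fun k s => s • y k) = e.2 := by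
  classical
  have hc : ∀ e : E, IsClosed {y : κ → N | e.1.1.sum (fun k s => s • y k) = e.1.2} := by
    intro e
    refine isClosed_eq ?_ continuous_const
    unfold Finsupp.sum
    refine continuous_finsetSum _ fun k _ => ?_
    exact (continuous_apply k).const_smul _
  obtain ⟨y, -, hy⟩ := isCompact_univ.inter_iInter_nonempty _ hc (by
    intro F
    obtain ⟨y, hy⟩ := h (F.image Subtype.val) (by
      intro e he
      obtain ⟨e', -, rfl⟩ := Finset.mem_image.mp (Finset.mem_coe.mp he)
      exact e'.2)
    refine ⟨y, Set.mem_univ _, ?_⟩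
    rw [Set.mem_iInter₂]
    intro e he
    exact hy e.1 (Finset.mem_image_of_mem _ he))
  rw [Set.mem_iInter] at hy
  exact ⟨y, fun e he => hy ⟨e, he⟩⟩

/-- Extension of a homomorphism into a compact module along an arbitrary homomorphism. -/
theorem exists_extension {A : Type*} {B : Type*} [AddCommGroup A] [Module S A] [AddCommGroup B]
    [Module S B] (i : A →ₗ[S] B) (f : A →ₗ[S] N)
    (h : ∀ (n k : ℕ) (b : Fin n → Fin k → S) (c : Fin n → A),
      (∃ y : Fin k → B, ∀ r, ∑ j, b r j • y j = i (c r)) →
        ∃ y : Fin k → N, ∀ r, ∑ j, b r j • y j = f (c r)) :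
    ∃ g : B →ₗ[S] N, g ∘ₗ i = f := by
  classical
  set E : Set ((B →₀ S) × N) := {e | ∃ a : A, e.1.sum (fun b s => s • b) = i a ∧ e.2 = f a}
    with hE
  obtain ⟨y, hy⟩ := exists_solution_of_finite E (by
    intro F hF
    choose a ha using fun e : F => hF e.2
    set U : Finset B := F.biUnion fun e => e.1.support with hU
    have hUs : ∀ e : F, e.1.1.support ⊆ U := fun e =>
      Finset.subset_biUnion_of_mem (fun e : (B →₀ S) × N => e.1.support) e.2
    obtain ⟨y', hy'⟩ := h (Fintype.card F) (Fintype.card U)
      (fun r j => ((Fintype.equivFin F).symm r).1.1 ((Fintype.equivFin U).symm j).1)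
      (fun r => a ((Fintype.equivFin F).symm r)) (by
        refine ⟨fun j => ((Fintype.equivFin U).symm j).1, fun r => ?_⟩
        rw [← (ha ((Fintype.equivFin F).symm r)).1]
        rw [sum_eq_sum_coe _ U (hUs _) (fun b => b)]
        exact (Fintype.sum_equiv (Fintype.equivFin U).symm _ _ (fun j => rfl)))
    refine ⟨fun b => if hb : b ∈ U then y' (Fintype.equivFin U ⟨b, hb⟩) else 0, ?_⟩
    intro e he
    have h1 := hy' (Fintype.equivFin F ⟨e, he⟩)
    simp only [Equiv.symm_apply_apply] at h1
    rw [(ha ⟨e, he⟩).2, ← h1]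
    rw [sum_eq_sum_coe e.1 U (hUs ⟨e, he⟩)]
    refine Fintype.sum_equiv (Fintype.equivFin U) _ _ (fun b => ?_)
    rw [dif_pos b.2, Equiv.symm_apply_apply])
  have key : ∀ (r : B →₀ S) (a : A), r.sum (fun b s => s • b) = i a →
      r.sum (fun b s => s • y b) = f a := fun r a hra => hy (r, f a) ⟨a, hra, rfl⟩
  have key' : ∀ (r : B →₀ S) (a : A), Finsupp.linearCombination S (id : B → B) r = i a →
      Finsupp.linearCombination S y r = f a := fun r a hra => key r a hra
  have hadd : ∀ b₁ b₂, y (b₁ + b₂) = y b₁ + y b₂ := by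
    intro b₁ b₂
    have h1 := key' (Finsupp.single (b₁ + b₂) 1 - Finsupp.single b₁ 1 -
      Finsupp.single b₂ 1) 0 (by
        simp only [map_sub, Finsupp.linearCombination_single, one_smul, id, map_zero]
        abel)
    simp only [map_sub, Finsupp.linearCombination_single, one_smul, map_zero] at h1
    have h2 : y (b₁ + b₂) = (y (b₁ + b₂) - y b₁ - y b₂) + (y b₁ + y b₂) := by abel
    rw [h2, h1, zero_add]
  have hsmul : ∀ (s : S) (b : B), y (s • b) = s • y b := by
    intro s b
    have h1 := key' (Finsupp.single (s • b) 1 - Finsupp.single b s) 0 (by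
        simp only [map_sub, Finsupp.linearCombination_single, one_smul, id, map_zero, sub_self])
    simp only [map_sub, Finsupp.linearCombination_single, one_smul, map_zero] at h1
    exact sub_eq_zero.mp h1
  refine ⟨⟨⟨y, hadd⟩, hsmul⟩, ?_⟩
  ext a
  have h1 := key' (Finsupp.single (i a) 1) a (by
    simp only [Finsupp.linearCombination_single, one_smul, id])
  simp only [Finsupp.linearCombination_single, one_smul] at h1
  exact h1

/-- If every pp condition satisfied by `b` is satisfied by the element `c` of the compact module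
`N`, then some homomorphism takes `b` to `c`. -/
theorem exists_hom_of_pp {B : Type*} [AddCommGroup B] [Module S B] (b : B) (c : N)
    (h : ∀ φ : PP S, b ∈ φ.sol B → c ∈ φ.sol N) : ∃ g : B →ₗ[S] N, g b = c := by
  obtain ⟨g, hg⟩ := exists_extension (LinearMap.toSpanSingleton S B b)
    (LinearMap.toSpanSingleton S N c) (by
      intro n k m a hy
      obtain ⟨y, hy⟩ := hy
      obtain ⟨y', hy'⟩ := h ⟨n, k, fun r => -a r, m⟩ ⟨y, fun r => by
        have := hy r
        rw [LinearMap.toSpanSingleton_apply] at this
        show (-a r) • b + ∑ j, m r j • y j = 0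
        rw [this, neg_smul, neg_add_cancel]⟩
      refine ⟨y', fun r => ?_⟩
      have h1 : (-a r) • c + ∑ j, m r j • y' j = 0 := hy' r
      rw [LinearMap.toSpanSingleton_apply]
      rw [neg_smul, neg_add_eq_zero] at h1
      exact h1.symm)
  refine ⟨g, ?_⟩
  have := LinearMap.congr_fun hg 1
  simpa using this

/-- pp conditions define closed subgroups in compact modules. -/
theorem isClosed_sol (φ : PP S) : IsClosed (φ.sol N : Set N) := by
  have h1 : IsClosed {z : N × (Fin φ.k → N) | ∀ i, φ.a i • z.1 + ∑ j, φ.b i j • z.2 j = 0} := by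
    rw [Set.ofPred_forall]
    refine isClosed_iInter fun i => isClosed_eq ?_ continuous_const
    refine (continuous_fst.const_smul _).add (continuous_finsetSum _ fun j _ => ?_)
    exact ((continuous_apply j).comp continuous_snd).const_smul _
  have h2 : (φ.sol N : Set N) =
      Prod.fst '' {z : N × (Fin φ.k → N) | ∀ i, φ.a i • z.1 + ∑ j, φ.b i j • z.2 j = 0} := by
    ext x
    constructor
    · rintro ⟨y, hy⟩
      exact ⟨(x, y), hy, rfl⟩
    · rintro ⟨⟨x', y⟩, hy, rfl⟩
      exact ⟨y, hy⟩
  rw [h2]
  exact (h1.isCompact.image continuous_fst).isClosed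

end Compact

/-- A compact module is pure-injective, and so is every retract of it. -/
theorem pureInjective_of_retract {N : Type u} [AddCommGroup N] [Module S N] [TopologicalSpace N]
    [CompactSpace N] [T2Space N] [ContinuousAdd N] [ContinuousConstSMul S N]
    {H : Type u} [AddCommGroup H] [Module S H] (ι : H →ₗ[S] N) (ρ : N →ₗ[S] H)
    (hρ : ρ ∘ₗ ι = LinearMap.id) : PureInjective S H := by
  intro A B _ _ _ _ i hi f
  obtain ⟨g, hg⟩ := exists_extension i (ι ∘ₗ f) (by
    intro n k b c hy
    obtain ⟨y, hy⟩ := hi.2 n k b c hy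
    refine ⟨fun j => ι (f (y j)), fun r => ?_⟩
    rw [LinearMap.comp_apply, ← hy r]
    simp only [map_sum, map_smul])
  refine ⟨ρ ∘ₗ g, ?_⟩
  rw [LinearMap.comp_assoc, hg, ← LinearMap.comp_assoc, hρ, LinearMap.id_comp]

end Pool.Agent.Helper10.Width
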