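import Mathlib

/-!
# Positive primitive conditions, pure-injective and superdecomposable modules
-/

universe u v w

namespace Pool.Agent.Helper10.Width

/-- A positive primitive (pp) condition in one free variable `x` over the ring `S` (for left
`S`-modules): `∃ y, ∀ i, a i • x + ∑ j, b i j • y j = 0`. -/
structure PP (S : Type u) where
  /-- number of equations -/
  n : ℕ
  /-- number of bound variables -/
  k : ℕ
  /-- coefficients of the free variable -/
  a : Fin n → S
  /-- coefficients of the bound variables -/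
  b : Fin n → Fin k → S

variable {S : Type u} [Ring S]

/-- The set of the solutions of a pp condition in a module. -/
def PP.solSet (φ : PP S) (M : Type v) [AddCommGroup M] [Module S M] : Set M :=
  {x | ∃ y : Fin φ.k → M, ∀ i, φ.a i • x + ∑ j, φ.b i j • y j = 0}

theorem PP.zero_mem_solSet (φ : PP S) (M : Type v) [AddCommGroup M] [Module S M] :
    (0 : M) ∈ φ.solSet M := ⟨0, fun i => by simp⟩

theorem PP.add_mem_solSet (φ : PP S) (M : Type v) [AddCommGroup M] [Module S M] {x x' : M}
    (hx : x ∈ φ.solSet M) (hx' : x' ∈ φ.solSet M) : x + x' ∈ φ.solSet M := by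
  obtain ⟨y, hy⟩ := hx
  obtain ⟨y', hy'⟩ := hx'
  refine ⟨y + y', fun i => ?_⟩
  have e : φ.a i • (x + x') + ∑ j, φ.b i j • (y + y') j =
      (φ.a i • x + ∑ j, φ.b i j • y j) + (φ.a i • x' + ∑ j, φ.b i j • y' j) := by
    simp only [Pi.add_apply, smul_add, Finset.sum_add_distrib]
    abel
  rw [e, hy, hy', add_zero]

theorem PP.neg_mem_solSet (φ : PP S) (M : Type v) [AddCommGroup M] [Module S M] {x : M}
    (hx : x ∈ φ.solSet M) : -x ∈ φ.solSet M := by
  obtain ⟨y, hy⟩ := hx
  refine ⟨-y, fun i => ?_⟩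
  have e : φ.a i • (-x) + ∑ j, φ.b i j • (-y) j =
      -(φ.a i • x + ∑ j, φ.b i j • y j) := by
    simp only [Pi.neg_apply, smul_neg, Finset.sum_neg_distrib]
    abel
  rw [e, hy, neg_zero]

/-- The subgroup of a module defined by a pp condition. -/
def PP.sol (φ : PP S) (M : Type v) [AddCommGroup M] [Module S M] : AddSubgroup M where
  carrier := φ.solSet M
  zero_mem' := φ.zero_mem_solSet M
  add_mem' := φ.add_mem_solSet M
  neg_mem' := φ.neg_mem_solSet M

theorem PP.mem_sol {φ : PP S} {M : Type v} [AddCommGroup M] [Module S M] {x : M} :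
    x ∈ φ.sol M ↔ ∃ y : Fin φ.k → M, ∀ i, φ.a i • x + ∑ j, φ.b i j • y j = 0 := Iff.rfl

/-- The pp condition given by a finite system with arbitrary finite index types. -/
noncomputable def PP.mk' {ι : Type v} {κ : Type w} [Fintype ι] [Fintype κ]
    (a : ι → S) (b : ι → κ → S) : PP S where
  n := Fintype.card ι
  k := Fintype.card κ
  a := fun i => a ((Fintype.equivFin ι).symm i)
  b := fun i j => b ((Fintype.equivFin ι).symm i) ((Fintype.equivFin κ).symm j)

theorem PP.mem_mk' {ι : Type v} {κ : Type w} [Fintype ι] [Fintype κ]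
    (a : ι → S) (b : ι → κ → S) {M : Type*} [AddCommGroup M] [Module S M] {x : M} :
    x ∈ (PP.mk' a b).sol M ↔ ∃ y : κ → M, ∀ i, a i • x + ∑ j, b i j • y j = 0 := by
  rw [PP.mem_sol]
  constructor
  · rintro ⟨y, hy⟩
    refine ⟨fun j => y (Fintype.equivFin κ j), fun i => ?_⟩
    have h := hy (Fintype.equivFin ι i)
    simp only [PP.mk', Equiv.symm_apply_apply] at h
    rw [← h]
    congr 1
    exact (Fintype.sum_equiv (Fintype.equivFin κ) _ _ (fun j => by simp))
  · rintro ⟨y, hy⟩
    refine ⟨fun j => y ((Fintype.equivFin κ).symm j), fun i => ?_⟩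
    have h := hy ((Fintype.equivFin ι).symm i)
    simp only [PP.mk']
    rw [← h]
    congr 1
    exact (Fintype.sum_equiv (Fintype.equivFin κ).symm _ _ (fun j => by simp))

/-- Homomorphisms preserve pp conditions. -/
theorem PP.map_sol (φ : PP S) {M : Type v} {N : Type w} [AddCommGroup M] [Module S M]
    [AddCommGroup N] [Module S N] (f : M →ₗ[S] N) {x : M} (hx : x ∈ φ.sol M) :
    f x ∈ φ.sol N := by
  obtain ⟨y, hy⟩ := hx
  refine ⟨fun j => f (y j), fun i => ?_⟩
  have := congrArg f (hy i)
  simpa [map_add, map_sum] using this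

/-- The pp condition defining the sum of two pp-definable subgroups. -/
noncomputable def PP.sup (φ ψ : PP S) : PP S :=
  PP.mk' (ι := Fin φ.n ⊕ Fin ψ.n) (κ := Unit ⊕ (Fin φ.k ⊕ Fin ψ.k))
    (Sum.elim (fun _ => 0) ψ.a)
    (Sum.elim (fun i => Sum.elim (fun _ => φ.a i) (Sum.elim (φ.b i) (fun _ => 0)))
      (fun i => Sum.elim (fun _ => -ψ.a i) (Sum.elim (fun _ => 0) (ψ.b i))))

theorem PP.sol_sup (φ ψ : PP S) (M : Type v) [AddCommGroup M] [Module S M] :
    (φ.sup ψ).sol M = φ.sol M ⊔ ψ.sol M := by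
  ext x
  rw [PP.sup, PP.mem_mk', AddSubgroup.mem_sup]
  constructor
  · rintro ⟨y, hy⟩
    refine ⟨y (Sum.inl ()), ⟨fun j => y (Sum.inr (Sum.inl j)), fun i => ?_⟩,
      x - y (Sum.inl ()), ⟨fun j => y (Sum.inr (Sum.inr j)), fun i => ?_⟩, by abel⟩
    · have := hy (Sum.inl i)
      simpa using this
    · have := hy (Sum.inr i)
      simp only [Sum.elim_inr, Fintype.sum_sum_type, Sum.elim_inl, Finset.univ_unique,
        PUnit.default_eq_unit, Finset.sum_singleton, zero_smul, Finset.sum_const_zero,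
        zero_add] at this
      rw [smul_sub]
      rw [← this, neg_smul]
      abel
  · rintro ⟨x1, ⟨y1, hy1⟩, x2, ⟨y2, hy2⟩, rfl⟩
    refine ⟨Sum.elim (fun _ => x1) (Sum.elim y1 y2), ?_⟩
    rintro (i | i)
    · simpa using hy1 i
    · have := hy2 i
      simp only [Sum.elim_inr, Fintype.sum_sum_type, Sum.elim_inl, Finset.univ_unique,
        PUnit.default_eq_unit, Finset.sum_singleton, zero_smul, Finset.sum_const_zero,
        zero_add]
      rw [← this, smul_add, neg_smul]
      abel

/-- The pp condition defining the intersection of two pp-definable subgroups. -/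
noncomputable def PP.inf (φ ψ : PP S) : PP S :=
  PP.mk' (ι := Fin φ.n ⊕ Fin ψ.n) (κ := Fin φ.k ⊕ Fin ψ.k)
    (Sum.elim φ.a ψ.a)
    (Sum.elim (fun i => Sum.elim (φ.b i) (fun _ => 0))
      (fun i => Sum.elim (fun _ => 0) (ψ.b i)))

theorem PP.sol_inf (φ ψ : PP S) (M : Type v) [AddCommGroup M] [Module S M] :
    (φ.inf ψ).sol M = φ.sol M ⊓ ψ.sol M := by
  ext x
  rw [PP.inf, PP.mem_mk', AddSubgroup.mem_inf]
  constructor
  · rintro ⟨y, hy⟩
    refine ⟨⟨fun j => y (Sum.inl j), fun i => ?_⟩, ⟨fun j => y (Sum.inr j), fun i => ?_⟩⟩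
    · simpa using hy (Sum.inl i)
    · simpa using hy (Sum.inr i)
  · rintro ⟨⟨y1, hy1⟩, ⟨y2, hy2⟩⟩
    refine ⟨Sum.elim y1 y2, ?_⟩
    rintro (i | i)
    · simpa using hy1 i
    · simpa using hy2 i

/-- The pp condition `x = 0`. -/
def PP.bot (S : Type u) [Ring S] : PP S where
  n := 1
  k := 0
  a := fun _ => 1
  b := fun _ => Fin.elim0

theorem PP.sol_bot (M : Type v) [AddCommGroup M] [Module S M] :
    (PP.bot S).sol M = ⊥ := by
  ext x
  rw [PP.mem_sol, AddSubgroup.mem_bot]
  constructor
  · rintro ⟨y, hy⟩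
    have h : (1 : S) • x + ∑ j : Fin 0, (Fin.elim0 j : S) • y j = 0 := hy (0 : Fin 1)
    simpa using h
  · rintro rfl
    refine ⟨Fin.elim0, fun i => ?_⟩
    show (1 : S) • (0 : M) + ∑ j : Fin 0, (Fin.elim0 j : S) • (Fin.elim0 j : M) = 0
    simp

/-- The pp condition `x = x`. -/
def PP.top (S : Type u) [Ring S] : PP S where
  n := 0
  k := 0
  a := Fin.elim0
  b := fun _ => Fin.elim0

theorem PP.sol_top (M : Type v) [AddCommGroup M] [Module S M] :
    (PP.top S).sol M = ⊤ := by
  ext x
  rw [PP.mem_sol]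
  refine ⟨fun _ => trivial, fun _ => ⟨Fin.elim0, fun i => Fin.elim0 i⟩⟩

/-- The class of modules defined by a set of pairs of pp conditions: the modules in which the
first condition of every pair implies the second one. (These are the definable classes; the empty
set of pairs gives all modules.) -/
def InClass (T : Set (PP S × PP S)) (M : Type v) [AddCommGroup M] [Module S M] : Prop :=
  ∀ p ∈ T, p.1.sol M ≤ p.2.sol M

/-- A homomorphism is a pure embedding if it is injective and every finite system of linear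
equations with constants in `A` which is solvable in `B` is solvable in `A`. -/
def IsPureEmb {A : Type v} {B : Type w} [AddCommGroup A] [Module S A] [AddCommGroup B]
    [Module S B] (i : A →ₗ[S] B) : Prop :=
  Function.Injective i ∧ ∀ (n k : ℕ) (b : Fin n → Fin k → S) (c : Fin n → A),
    (∃ y : Fin k → B, ∀ r, ∑ j, b r j • y j = i (c r)) →
      ∃ y : Fin k → A, ∀ r, ∑ j, b r j • y j = c r

/-- Pure-injective modules: the modules injective with respect to pure embeddings. -/
def PureInjective (S : Type u) [Ring S] (M : Type u) [AddCommGroup M] [Module S M] : Prop :=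
  ∀ (A B : Type u) [AddCommGroup A] [Module S A] [AddCommGroup B] [Module S B]
    (i : A →ₗ[S] B), IsPureEmb i → ∀ f : A →ₗ[S] M, ∃ g : B →ₗ[S] M, g ∘ₗ i = f

/-- A module is indecomposable if it is nonzero and has no direct sum decomposition with two
nonzero summands. -/
def Indecomposable (S : Type u) [Ring S] (M : Type v) [AddCommGroup M] [Module S M] : Prop :=
  Nontrivial M ∧ ∀ A B : Submodule S M, IsCompl A B → A = ⊥ ∨ B = ⊥

/-- A module is superdecomposable if it is nonzero and has no indecomposable direct summand. -/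
def Superdecomposable (S : Type u) [Ring S] (M : Type v) [AddCommGroup M] [Module S M] : Prop :=
  Nontrivial M ∧ ∀ A B : Submodule S M, IsCompl A B → ¬ Indecomposable S A

/-- The modules of the class defined by `T`. -/
abbrev Mods (T : Set (PP S × PP S)) : Type (u + 1) := {M : ModuleCat.{u} S // InClass T M}

/-- The functions assigning to every module of the class one of its subgroups. -/
def SubFun (T : Set (PP S × PP S)) : Type (u + 1) := ∀ M : Mods T, AddSubgroup M.1

instance (T : Set (PP S × PP S)) : Lattice (SubFun T) :=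
  inferInstanceAs (Lattice (∀ M : Mods T, AddSubgroup M.1))

/-- The function `M ↦ φ(M)` on the modules of the class defined by `T`. -/
def ppFun (T : Set (PP S × PP S)) (φ : PP S) : SubFun T := fun M => φ.sol M.1

theorem supClosed_ppFun (T : Set (PP S × PP S)) : SupClosed (Set.range (ppFun T)) := by
  rintro _ ⟨φ, rfl⟩ _ ⟨ψ, rfl⟩
  refine ⟨φ.sup ψ, ?_⟩
  funext M
  exact PP.sol_sup φ ψ M.1

theorem infClosed_ppFun (T : Set (PP S × PP S)) : InfClosed (Set.range (ppFun T)) := by
  rintro _ ⟨φ, rfl⟩ _ ⟨ψ, rfl⟩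
  refine ⟨φ.inf ψ, ?_⟩
  funext M
  exact PP.sol_inf φ ψ M.1

/-- The lattice `pp(X)` of pp conditions modulo equivalence in the modules of the class `X`
defined by `T`, ordered by implication in all these modules. It is realised as the sublattice of
all the functions `M ↦ φ(M)`, `φ` a pp condition, in the lattice of the functions assigning to
every module of the class one of its subgroups. -/
def ppLattice (T : Set (PP S × PP S)) : Sublattice (SubFun T) where
  carrier := Set.range (ppFun T)
  supClosed' := supClosed_ppFun T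
  infClosed' := infClosed_ppFun T

/-- The interval `[α, β]` of a lattice is a distributive lattice. -/
def IsDistributiveInterval {L : Type*} [Lattice L] (α β : L) : Prop :=
  ∀ x ∈ Set.Icc α β, ∀ y ∈ Set.Icc α β, ∀ z ∈ Set.Icc α β, x ⊓ (y ⊔ z) = (x ⊓ y) ⊔ (x ⊓ z)

/-- The class of modules defined by `T` contains a superdecomposable pure-injective module. -/
def HasSuperdecomposable (T : Set (PP S × PP S)) : Prop :=
  ∃ M : ModuleCat.{u} S, InClass T M ∧ PureInjective S M ∧ Superdecomposable S M

/-- Some element of `P` lies strictly above `θ` and below `θ ⊔ θ'`, and some element of `P` lies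
strictly below `θ` and above `θ ⊓ θ'`. -/
def Flanked {L : Type*} [Lattice L] (P : Set L) (θ θ' : L) : Prop :=
  (∃ u ∈ P, θ < u ∧ u ≤ θ ⊔ θ') ∧ ∃ l ∈ P, l < θ ∧ θ ⊓ θ' ≤ l

/-- A subposet `P` of a lattice is wide if it has two distinct comparable elements and between any
two of its elements `ψ < φ` there are incomparable `θ₁, θ₂ ∈ P` such that some elements of `P` lie
strictly above `θᵢ` and below `θ₁ ⊔ θ₂`, and some lie strictly below `θᵢ` and above
`θ₁ ⊓ θ₂` (for `i = 1, 2`). -/
def IsWide {L : Type*} [Lattice L] (P : Set L) : Prop :=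
  (∃ φ ∈ P, ∃ ψ ∈ P, ψ < φ) ∧
  ∀ φ ∈ P, ∀ ψ ∈ P, ψ < φ →
    ∃ θ₁ ∈ P, ∃ θ₂ ∈ P, ¬ θ₁ ≤ θ₂ ∧ ¬ θ₂ ≤ θ₁ ∧
      ψ < θ₁ ∧ θ₁ < φ ∧ ψ < θ₂ ∧ θ₂ < φ ∧ Flanked P θ₁ θ₂ ∧ Flanked P θ₂ θ₁

end Pool.Agent.Helper10.Width
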