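import Pool.Agent.Helper10.Width.Bidual

/-!
# pp conditions in the bidual
-/

universe u v w

namespace Pool.Agent.Helper10.Width

variable {M : Type v} [AddCommGroup M] {S : Type u} [Ring S] [Module S M]

/-- `pre s` as a homomorphism. -/
def preHom (s : S) : (M →+ Circ) →+ (M →+ Circ) where
  toFun := pre s
  map_zero' := pre_zero s
  map_add' := pre_add s

@[simp] theorem preHom_apply (s : S) (u : M →+ Circ) : preHom s u = pre s u := rfl

theorem AddMonoidHom.sum_apply' {P Q : Type*} [AddCommGroup P] [AddCommGroup Q] {ι : Type*}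
    (s : Finset ι) (f : ι → (P →+ Q)) (x : P) : (∑ i ∈ s, f i) x = ∑ i ∈ s, f i x := by
  rw [AddMonoidHom.finsetSum_apply]

/-- An element of the bidual satisfies a pp condition if and only if it kills the annihilator of
the subgroup defined by the condition. -/
theorem mem_sol_bidual {φ : PP S} {χ : Bidual M} :
    χ ∈ φ.sol (Bidual M) ↔ ∀ u : M →+ Circ, (∀ x ∈ φ.sol M, u x = 0) → χ u = 0 := by
  classical
  constructor
  · rintro ⟨η, hη⟩ u hu
    -- the homomorphism whose kernel describes the solutions
    let A : M × (Fin φ.k → M) →+ (Fin φ.n → M) := AddMonoidHom.mk'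
      (fun z i => φ.a i • z.1 + ∑ j, φ.b i j • z.2 j) (fun z z' => by
        funext i
        simp only [Prod.fst_add, Prod.snd_add, Pi.add_apply, smul_add, Finset.sum_add_distrib]
        abel)
    have hA : ∀ z i, A z i = φ.a i • z.1 + ∑ j, φ.b i j • z.2 j := fun z i => rfl
    obtain ⟨v, hv⟩ := exists_factor A (u.comp (AddMonoidHom.fst _ _)) (by
      intro z hz
      refine hu z.1 ⟨z.2, fun i => ?_⟩
      rw [← hA, hz]
      rfl)
    have hv' : ∀ z, v (A z) = u z.1 := fun z => DFunLike.congr_fun hv z
    set V : Fin φ.n → (M →+ Circ) := fun i => v.comp (AddMonoidHom.single (fun _ => M) i) with hV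
    have hVz : ∀ z : Fin φ.n → M, ∑ i, V i (z i) = v z := by
      intro z
      simp only [hV, AddMonoidHom.comp_apply, AddMonoidHom.single_apply]
      rw [← map_sum, Finset.univ_sum_single]
    have h1 : u = ∑ i, preHom (φ.a i) (V i) := by
      ext x
      rw [AddMonoidHom.sum_apply']
      have := hVz (A (x, 0))
      rw [hv'] at this
      rw [← this]
      refine Finset.sum_congr rfl fun i _ => ?_
      rw [hA]
      simp
    have h2 : ∀ j, ∑ i, preHom (φ.b i j) (V i) = 0 := by
      intro j
      ext y
      rw [AddMonoidHom.sum_apply']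
      have := hVz (A (0, Pi.single j y))
      rw [hv', map_zero] at this
      rw [AddMonoidHom.zero_apply, ← this]
      refine Finset.sum_congr rfl fun i _ => ?_
      rw [hA]
      simp only [smul_zero, zero_add, preHom_apply, pre_apply]
      rw [Finset.sum_eq_single j]
      · rw [Pi.single_eq_same]
      · intro j' _ hj'
        rw [Pi.single_eq_of_ne hj', smul_zero]
      · intro h
        exact absurd (Finset.mem_univ j) h
    have h3 : ∀ i, χ (preHom (φ.a i) (V i)) = -∑ j, η j (preHom (φ.b i j) (V i)) := by
      intro i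
      have := congrArg (fun ξ : Bidual M => ξ (V i)) (hη i)
      simp only [Bidual.add_apply, Bidual.sum_apply, Bidual.smul_apply, Bidual.zero_apply] at this
      exact eq_neg_of_add_eq_zero_left this
    rw [h1, map_sum]
    rw [Finset.sum_congr rfl fun i _ => h3 i, Finset.sum_neg_distrib, Finset.sum_comm]
    rw [neg_eq_zero]
    refine Finset.sum_eq_zero fun j _ => ?_
    rw [← map_sum, h2, map_zero]
  · intro h
    let B : (Fin φ.n → (M →+ Circ)) →+ (Fin φ.k → (M →+ Circ)) := AddMonoidHom.mk'
      (fun v j => ∑ i, preHom (φ.b i j) (v i)) (fun v v' => by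
        funext j
        simp only [Pi.add_apply, map_add, Finset.sum_add_distrib])
    have hB : ∀ v j, B v j = ∑ i, preHom (φ.b i j) (v i) := fun v j => rfl
    let W : (Fin φ.n → (M →+ Circ)) →+ Circ := AddMonoidHom.mk'
      (fun v => -χ (∑ i, preHom (φ.a i) (v i))) (fun v v' => by
        simp only [Pi.add_apply, map_add, Finset.sum_add_distrib, neg_add])
    have hW : ∀ v, W v = -χ (∑ i, preHom (φ.a i) (v i)) := fun v => rfl
    obtain ⟨E, hE⟩ := exists_factor B W (by
      intro v hv
      rw [hW, neg_eq_zero]
      refine h _ ?_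
      rintro x ⟨y, hy⟩
      rw [AddMonoidHom.sum_apply']
      have h1 : ∀ i, φ.a i • x = -∑ j, φ.b i j • y j := fun i =>
        eq_neg_of_add_eq_zero_left (hy i)
      have h2 : ∀ i, preHom (φ.a i) (v i) x = -∑ j, preHom (φ.b i j) (v i) (y j) := by
        intro i
        rw [preHom_apply, pre_apply, h1, map_neg, map_sum]
        rfl
      rw [Finset.sum_congr rfl fun i _ => h2 i, Finset.sum_neg_distrib, Finset.sum_comm,
        neg_eq_zero]
      refine Finset.sum_eq_zero fun j _ => ?_
      have h3 := congrFun hv j
      rw [hB] at h3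
      rw [← AddMonoidHom.sum_apply', h3]
      rfl)
    have hE' : ∀ v, E (B v) = -χ (∑ i, preHom (φ.a i) (v i)) := fun v => DFunLike.congr_fun hE v
    let η : Fin φ.k → Bidual M := fun j => (E.comp (AddMonoidHom.single (fun _ => (M →+ Circ)) j) :
      (M →+ Circ) →+ Circ)
    have hη : ∀ j u, η j u = E (Pi.single j u) := fun j u => rfl
    refine ⟨η, fun i => ?_⟩
    ext u
    rw [Bidual.add_apply, Bidual.sum_apply, Bidual.zero_apply, Bidual.smul_apply]
    have h1 : ∑ j, (φ.b i j • η j) u = E (B (Pi.single i u)) := by
      have h2 : B (Pi.single i u) = ∑ j, Pi.single j (pre (φ.b i j) u) := by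
        funext j
        rw [hB, Finset.sum_apply, Finset.sum_pi_single]
        rw [if_pos (Finset.mem_univ _), Finset.sum_eq_single i]
        · rw [Pi.single_eq_same]; rfl
        · intro i' _ hi'
          rw [Pi.single_eq_of_ne hi', map_zero]
        · intro h
          exact absurd (Finset.mem_univ i) h
      rw [h2, map_sum]
      refine Finset.sum_congr rfl fun j _ => ?_
      rw [Bidual.smul_apply, hη]
    rw [h1, hE', Finset.sum_eq_single i]
    · rw [Pi.single_eq_same, preHom_apply, add_neg_cancel]
    · intro i' _ hi'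
      rw [Pi.single_eq_of_ne hi', map_zero]
    · intro h
      exact absurd (Finset.mem_univ i) h

/-- The canonical homomorphism to the bidual preserves and reflects pp conditions. -/
theorem ev_mem_sol {φ : PP S} {x : M} : ev (S := S) x ∈ φ.sol (Bidual M) ↔ x ∈ φ.sol M := by
  constructor
  · intro h
    by_contra hx
    obtain ⟨u, hu, hux⟩ := exists_char (φ.sol M) hx
    exact hux (mem_sol_bidual.mp h u hu)
  · exact fun h => φ.map_sol ev h

/-- The bidual of a module of a definable class is in this class. -/
theorem inClass_bidual {T : Set (PP S × PP S)} (h : InClass T M) : InClass T (Bidual M) := by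
  intro p hp χ hχ
  rw [mem_sol_bidual] at hχ ⊢
  exact fun u hu => hχ u fun x hx => hu x (h p hp hx)

end Pool.Agent.Helper10.Width
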