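import Pool.Agent.Helper10.Width.Defs

/-!
# A filter without large elements from a distributing wide subposet
-/

universe u

namespace Pool.Agent.Helper10.Width

/-- The nodes of length `m` of the binary tree. -/
def lev : ℕ → Finset (List Bool)
  | 0 => {[]}
  | m + 1 => (lev m).image (List.cons false) ∪ (lev m).image (List.cons true)

theorem mem_lev {m : ℕ} {s : List Bool} : s ∈ lev m ↔ s.length = m := by
  induction m generalizing s with
  | zero => simp [lev, List.length_eq_zero_iff]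
  | succ m ih =>
    cases s with
    | nil => simp [lev]
    | cons b s =>
      simp only [lev, Finset.mem_union, Finset.mem_image, ih, List.length_cons,
        Nat.add_right_cancel_iff]
      cases b <;> simp

variable {L : Type u} [Lattice L] {P : Set L}

/-- A pair of comparable elements of `P`. -/
structure WPair (P : Set L) where
  /-- the upper element -/
  hi : L
  /-- the lower element -/
  lo : L
  hi_mem : hi ∈ P
  lo_mem : lo ∈ P
  lt : lo < hi

theorem exists_children (hP : IsWide P) (q : WPair P) : ∃ q₀ q₁ : WPair P,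
    q₀.hi ≤ q.hi ∧ q₁.hi ≤ q.hi ∧ q.lo ≤ q₀.lo ∧ q.lo ≤ q₁.lo ∧
      q₀.hi ⊓ q₁.hi ≤ q₀.lo ∧ q₀.hi ⊓ q₁.hi ≤ q₁.lo := by
  obtain ⟨φ, ψ, hφ, hψ, hlt⟩ := q
  obtain ⟨θ₁, h₁, θ₂, h₂, -, -, a₁, a₂, a₃, a₄, ⟨-, θ₁₂, h₁₂, c₁, c₂⟩,
    ⟨-, θ₂₂, h₂₂, d₁, d₂⟩⟩ := hP.2 φ hφ ψ hψ hlt
  rw [inf_comm] at d₂
  refine ⟨⟨θ₁, θ₁₂, h₁, h₁₂, c₁⟩, ⟨θ₂, θ₂₂, h₂, h₂₂, d₁⟩, a₂.le, a₄.le,
    (le_inf a₁.le a₃.le).trans c₂, (le_inf a₁.le a₃.le).trans d₂, c₂, d₂⟩

/-- The tree of pairs given by a wide subposet. -/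
theorem exists_tree (hP : IsWide P) : ∃ φ ψ : List Bool → L, (∀ s, φ s ∈ P) ∧ (∀ s, ψ s < φ s) ∧
    (∀ b s, φ (b :: s) ≤ φ s) ∧ (∀ b s, ψ s ≤ ψ (b :: s)) ∧
    ∀ b s, φ (false :: s) ⊓ φ (true :: s) ≤ ψ (b :: s) := by
  obtain ⟨φ₀, hφ₀, ψ₀, hψ₀, h₀⟩ := hP.1
  choose c₀ c₁ hc using exists_children hP
  let node : List Bool → WPair P := fun s =>
    List.rec (motive := fun _ => WPair P) ⟨φ₀, ψ₀, hφ₀, hψ₀, h₀⟩
      (fun b _ q => if b then c₁ q else c₀ q) s
  have hf : ∀ s, node (false :: s) = c₀ (node s) := fun s => rfl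
  have ht : ∀ s, node (true :: s) = c₁ (node s) := fun s => rfl
  refine ⟨fun s => (node s).hi, fun s => (node s).lo, fun s => (node s).hi_mem,
    fun s => (node s).lt, ?_, ?_, ?_⟩
  · intro b s
    cases b
    · simp only [hf]; exact (hc (node s)).1
    · simp only [ht]; exact (hc (node s)).2.1
  · intro b s
    cases b
    · simp only [hf]; exact (hc (node s)).2.2.1
    · simp only [ht]; exact (hc (node s)).2.2.2.1
  · intro b s
    cases b
    · simp only [hf, ht]; exact (hc (node s)).2.2.2.2.1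
    · simp only [hf, ht]; exact (hc (node s)).2.2.2.2.2

/-- Finite joins of elements of `P` distribute over meets with arbitrary elements of the
lattice. -/
def Distributes (P : Set L) : Prop :=
  ∀ (F : Finset L) (hF : F.Nonempty), (∀ x ∈ F, x ∈ P) →
    ∀ σ : L, σ ⊓ F.sup' hF id ≤ F.sup' hF (fun x => σ ⊓ x)

theorem Distributes.inf_sup_le [OrderBot L] (hd : Distributes P) {ι : Type*} (u : Finset ι)
    (f : ι → L) (hf : ∀ i ∈ u, f i ∈ P) (σ c : L) (h : ∀ i ∈ u, σ ⊓ f i ≤ c) :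
    σ ⊓ u.sup f ≤ c := by
  classical
  rcases u.eq_empty_or_nonempty with rfl | hu
  · simp
  · have hF : (u.image f).Nonempty := hu.image f
    have h1 := hd (u.image f) hF (by
      intro x hx
      obtain ⟨i, hi, rfl⟩ := Finset.mem_image.mp hx
      exact hf i hi) σ
    have h2 : (u.image f).sup' hF id = u.sup f := by
      rw [Finset.sup'_eq_sup, Finset.sup_image]
      rfl
    rw [h2] at h1
    refine h1.trans ?_
    refine Finset.sup'_le _ _ fun x hx => ?_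
    obtain ⟨i, hi, rfl⟩ := Finset.mem_image.mp hx
    exact h i hi

/-- A wide subposet whose finite joins distribute over meets gives a filter without large
elements. -/
theorem exists_filter_of_distributes [OrderBot L] [IsModularLattice L] (hP : IsWide P)
    (hd : Distributes P) :
    ∃ p : Set L, (∀ x ∈ p, ∀ y, x ≤ y → y ∈ p) ∧ (∀ x ∈ p, ∀ y ∈ p, x ⊓ y ∈ p) ∧
      p.Nonempty ∧ (∃ x, x ∉ p) ∧
      ∀ x, x ∉ p → ∃ y z, y ∉ p ∧ z ∉ p ∧ x ≤ y ∧ x ≤ z ∧
        ∀ σ ∈ p, (σ ⊓ y) ⊔ (σ ⊓ z) ∈ p := by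
  classical
  obtain ⟨φ, ψ, hφP, hlt, hφ, hψ, hmeet⟩ := exists_tree hP
  -- different nodes of the same length
  have hdiff : ∀ s t : List Bool, s.length = t.length → s ≠ t → φ s ⊓ φ t ≤ ψ s := by
    intro s
    induction s with
    | nil =>
      intro t ht hne
      exact absurd (List.length_eq_zero_iff.mp ht.symm).symm hne
    | cons b s ih =>
      intro t ht hne
      cases t with
      | nil => simp at ht
      | cons c t =>
        by_cases hst : s = t
        · subst hst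
          have hbc : b ≠ c := fun h => hne (by rw [h])
          cases b <;> cases c
          · exact absurd rfl hbc
          · exact hmeet false s
          · rw [inf_comm]; exact hmeet true s
          · exact absurd rfl hbc
        · refine (inf_le_inf (hφ b s) (hφ c t)).trans ((ih t ?_ hst).trans (hψ b s))
          simpa using ht
  have happ : ∀ v s : List Bool, φ (v ++ s) ≤ φ s ∧ ψ s ≤ ψ (v ++ s) := by
    intro v s
    induction v with
    | nil => exact ⟨le_rfl, le_rfl⟩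
    | cons b v ih => exact ⟨(hφ b _).trans ih.1, ih.2.trans (hψ b _)⟩
  set Φ : ℕ → L := fun m => (lev m).sup φ with hΦ
  set lam : List Bool → L := fun s => ((lev s.length).erase s).sup φ with hlam
  have hle : ∀ s, φ s ≤ Φ s.length := fun s => Finset.le_sup (mem_lev.mpr rfl)
  have hΦs : ∀ m, Φ (m + 1) ≤ Φ m := by
    intro m
    refine Finset.sup_le fun s hs => ?_
    cases s with
    | nil => exact absurd (mem_lev.mp hs) (by simp)
    | cons b s =>
      have : s ∈ lev m := mem_lev.mpr (by simpa using mem_lev.mp hs)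
      exact (hφ b s).trans (Finset.le_sup this)
  have hΦanti : ∀ m k, Φ (m + k) ≤ Φ m := by
    intro m k
    induction k with
    | zero => exact le_rfl
    | succ k ih => exact (hΦs (m + k)).trans ih
  have hlamle : ∀ s t : List Bool, t.length = s.length → t ≠ s → φ t ≤ lam s :=
    fun s t ht hne => Finset.le_sup (Finset.mem_erase.mpr ⟨hne, mem_lev.mpr ht⟩)
  -- the meet of `φ s` with `lam s`
  have hinflam : ∀ s σ, σ ≤ φ s → σ ⊓ lam s ≤ ψ s := by
    intro s σ hσ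
    refine hd.inf_sup_le _ _ (fun i _ => hφP i) σ _ fun t ht => ?_
    obtain ⟨hne, ht⟩ := Finset.mem_erase.mp ht
    exact (inf_le_inf_right _ hσ).trans (hdiff s t (mem_lev.mp ht).symm hne.symm)
  -- the key inequality
  have hkey : ∀ b s, lam s ⊓ Φ (s.length + 1) ≤ lam (b :: s) := by
    intro b s
    refine hd.inf_sup_le _ _ (fun i _ => hφP i) _ _ fun v hv => ?_
    by_cases hvb : v = b :: s
    · subst hvb
      rw [inf_comm]
      refine (hinflam s (φ (b :: s)) (hφ b s)).trans ((hψ (!b) s).trans ((hlt _).le.trans ?_))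
      refine hlamle _ _ rfl ?_
      intro h
      have := (List.cons.inj h).1
      cases b <;> simp at this
    · refine inf_le_right.trans (hlamle _ _ ?_ hvb)
      rw [List.length_cons]
      exact mem_lev.mp hv
  -- the maximal filter
  let 𝓕 : Set (Set L) := {p | (∀ x ∈ p, ∀ y, x ≤ y → y ∈ p) ∧ (∀ x ∈ p, ∀ y ∈ p, x ⊓ y ∈ p) ∧
    (∀ m, Φ m ∈ p) ∧ ∀ s, lam s ∉ p}
  have h0 : {x | ∃ m, Φ m ≤ x} ∈ 𝓕 := by
    refine ⟨?_, ?_, fun m => ⟨m, le_rfl⟩, ?_⟩
    · rintro x ⟨m, hm⟩ y hxy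
      exact ⟨m, hm.trans hxy⟩
    · rintro x ⟨m, hm⟩ y ⟨m', hm'⟩
      refine ⟨m + m', le_inf ((hΦanti m m').trans hm) ?_⟩
      rw [add_comm]
      exact (hΦanti m' m).trans hm'
    · rintro s ⟨m, hm⟩
      set u : List Bool := List.replicate m false ++ s with hu
      have hul : u.length = m + s.length := by simp [hu]
      have h1 : φ u ≤ lam s := by
        refine (hle u).trans ?_
        rw [hul]
        exact (hΦanti m s.length).trans hm
      have h2 : φ u ≤ ψ s :=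
        (le_inf le_rfl h1).trans (hinflam s (φ u) (happ _ s).1)
      exact absurd (h2.trans (happ _ s).2) (not_le_of_gt (hlt u))
  obtain ⟨p, -, hp⟩ := zorn_subset_nonempty 𝓕 (by
    intro c hc hchain hne
    obtain ⟨p₀, hp₀⟩ := hne
    refine ⟨⋃₀ c, ⟨?_, ?_, ?_, ?_⟩, fun s hs => Set.subset_sUnion_of_mem hs⟩
    · rintro x ⟨q, hq, hx⟩ y hxy
      exact ⟨q, hq, (hc hq).1 x hx y hxy⟩
    · rintro x ⟨q, hq, hx⟩ y ⟨q', hq', hy⟩
      rcases hchain.total hq hq' with h | h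
      · exact ⟨q', hq', (hc hq').2.1 x (h hx) y hy⟩
      · exact ⟨q, hq, (hc hq).2.1 x hx y (h hy)⟩
    · exact fun m => ⟨p₀, hp₀, (hc hp₀).2.2.1 m⟩
    · rintro s ⟨q, hq, hs⟩
      exact (hc hq).2.2.2 s hs) _ h0
  obtain ⟨hup, hinf, hΦp, hlamp⟩ := hp.1
  have hmax : ∀ x, x ∉ p → ∃ σ ∈ p, ∃ s, σ ⊓ x ≤ lam s := by
    intro x hx
    by_contra hcon
    push Not at hcon
    have h1 : {y | ∃ σ ∈ p, σ ⊓ x ≤ y} ∈ 𝓕 := by
      refine ⟨?_, ?_, fun m => ⟨Φ m, hΦp m, inf_le_left⟩, ?_⟩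
      · rintro y ⟨σ, hσ, h⟩ z hyz
        exact ⟨σ, hσ, h.trans hyz⟩
      · rintro y ⟨σ, hσ, h⟩ z ⟨σ', hσ', h'⟩
        refine ⟨σ ⊓ σ', hinf σ hσ σ' hσ', le_inf ?_ ?_⟩
        · exact (inf_le_inf_right x inf_le_left).trans h
        · exact (inf_le_inf_right x inf_le_right).trans h'
      · rintro s ⟨σ, hσ, h⟩
        exact hcon σ hσ s h
    have h2 : p ⊆ {y | ∃ σ ∈ p, σ ⊓ x ≤ y} := fun y hy => ⟨y, hy, inf_le_left⟩
    exact hx (hp.2 h1 h2 ⟨Φ 0, hΦp 0, inf_le_right⟩)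
  refine ⟨p, hup, hinf, ⟨Φ 0, hΦp 0⟩, ⟨lam [], hlamp []⟩, fun x hx => ?_⟩
  obtain ⟨σ₀, hσ₀, s, hs⟩ := hmax x hx
  set σ₁ := σ₀ ⊓ Φ (s.length + 1) with hσ₁
  have hσ₁p : σ₁ ∈ p := hinf _ hσ₀ _ (hΦp _)
  have hσ₁x : σ₁ ⊓ x ≤ lam s := (inf_le_inf_right x inf_le_left).trans hs
  have hnot : ∀ b : Bool, x ⊔ (σ₁ ⊓ lam (b :: s)) ∉ p := by
    intro b hb
    refine hlamp (b :: s) (hup _ (hinf _ hσ₁p _ hb) _ ?_)
    have h1 : σ₁ ⊓ (x ⊔ (σ₁ ⊓ lam (b :: s))) ≤ (σ₁ ⊓ x) ⊔ (σ₁ ⊓ lam (b :: s)) := by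
      rw [sup_comm x, inf_comm σ₁ (_ ⊔ _)]
      refine (IsModularLattice.sup_inf_le_assoc_of_le x
        (inf_le_left : σ₁ ⊓ lam (b :: s) ≤ σ₁)).trans ?_
      rw [inf_comm x σ₁]
      exact sup_le le_sup_right le_sup_left
    refine h1.trans (sup_le ?_ inf_le_right)
    exact (le_inf hσ₁x (inf_le_left.trans inf_le_right)).trans (hkey b s)
  refine ⟨x ⊔ (σ₁ ⊓ lam (false :: s)), x ⊔ (σ₁ ⊓ lam (true :: s)), hnot false, hnot true,
    le_sup_left, le_sup_left, fun σ hσ => ?_⟩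
  refine hup (σ ⊓ σ₁) (hinf σ hσ σ₁ hσ₁p) _ ?_
  have h1 : σ ⊓ σ₁ ≤ (σ ⊓ σ₁) ⊓ Φ (s.length + 1) :=
    le_inf le_rfl (inf_le_right.trans inf_le_right)
  refine h1.trans (hd.inf_sup_le _ _ (fun i _ => hφP i) _ _ fun v hv => ?_)
  have hvl : v.length = s.length + 1 := mem_lev.mp hv
  by_cases hv0 : v = false :: s
  · have hv1 : v ≠ true :: s := by
      rw [hv0]
      intro h
      exact absurd (List.cons.inj h).1 (by simp)
    refine le_sup_of_le_right (le_inf (inf_le_left.trans inf_le_left)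
      (le_sup_of_le_right (le_inf (inf_le_left.trans inf_le_right) ?_)))
    exact inf_le_right.trans (hlamle _ _ (by rw [hvl]; rfl) hv1)
  · refine le_sup_of_le_left (le_inf (inf_le_left.trans inf_le_left)
      (le_sup_of_le_right (le_inf (inf_le_left.trans inf_le_right) ?_)))
    exact inf_le_right.trans (hlamle _ _ (by rw [hvl]; rfl) hv0)

end Pool.Agent.Helper10.Width
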