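import Pool.Agent.Helper10.Width.Main
import Pool.Agent.Helper10.Width.Tree

/-!
# Distributing wide subposets of pp lattices
-/

universe u

namespace Pool.Agent.Helper10.Width

section Interval

variable {L : Type u} [Lattice L]

/-- In a modular lattice, the elements of a distributive interval distribute. -/
theorem distributes_of_interval [IsModularLattice L] {α β : L} {P : Set L}
    (hP : P ⊆ Set.Icc α β)
    (hd : IsDistributiveInterval α β) : Distributes P := by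
  classical
  have h1 : ∀ (F : Finset L) (hF : F.Nonempty), (∀ x ∈ F, x ∈ P) → F.sup' hF id ∈ Set.Icc α β ∧
      ∀ σ ∈ Set.Icc α β, σ ⊓ F.sup' hF id ≤ F.sup' hF (fun x => σ ⊓ x) := by
    intro F hF
    induction hF using Finset.Nonempty.cons_induction with
    | singleton a =>
      intro h
      exact ⟨hP (h a (Finset.mem_singleton_self a)), fun σ _ => le_rfl⟩
    | cons a s ha hs ih =>
      intro h
      have h2 := ih (fun x hx => h x (Finset.mem_cons_of_mem hx))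
      have haI : a ∈ Set.Icc α β := hP (h a (Finset.mem_cons_self a s))
      rw [Finset.sup'_cons hs]
      refine ⟨⟨haI.1.trans le_sup_left, sup_le haI.2 h2.1.2⟩, fun σ hσ => ?_⟩
      rw [Finset.sup'_cons hs]
      rw [id, hd σ hσ _ haI _ h2.1]
      exact sup_le_sup le_rfl (h2.2 σ hσ)
  intro F hF hFP σ
  obtain ⟨hs, hdist⟩ := h1 F hF hFP
  obtain ⟨p₀, hp₀⟩ := hF
  have hσα : σ ⊓ α ≤ F.sup' ⟨p₀, hp₀⟩ (fun x => σ ⊓ x) :=
    (inf_le_inf_left σ (hP (hFP p₀ hp₀)).1).trans (Finset.le_sup' (fun x => σ ⊓ x) hp₀)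
  have hxσ : F.sup' ⟨p₀, hp₀⟩ (fun x => σ ⊓ x) ≤ σ := Finset.sup'_le _ _ fun _ _ => inf_le_left
  have hαβ : α ≤ β := hs.1.trans hs.2
  have h2 : σ ⊓ F.sup' ⟨p₀, hp₀⟩ id ≤ F.sup' ⟨p₀, hp₀⟩ (fun x => σ ⊓ x) ⊔ α := by
    have h3 : σ ⊓ F.sup' ⟨p₀, hp₀⟩ id ≤ ((σ ⊔ α) ⊓ β) ⊓ F.sup' ⟨p₀, hp₀⟩ id :=
      le_inf (le_inf (inf_le_left.trans le_sup_left) (inf_le_right.trans hs.2)) inf_le_right
    refine h3.trans ((hdist _ ⟨le_inf le_sup_right hαβ, inf_le_right⟩).trans ?_)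
    refine Finset.sup'_le _ _ fun x hx => ?_
    have hαx : α ≤ x := (hP (hFP x hx)).1
    have h4 : (σ ⊔ α) ⊓ x ≤ (σ ⊓ x) ⊔ α := by
      rw [sup_comm σ α, sup_comm _ α]
      exact IsModularLattice.sup_inf_le_assoc_of_le σ hαx
    refine (inf_le_inf_right x inf_le_left).trans (h4.trans (sup_le_sup_right ?_ α))
    exact Finset.le_sup' (fun x => σ ⊓ x) hx
  have h5 : (F.sup' ⟨p₀, hp₀⟩ (fun x => σ ⊓ x) ⊔ α) ⊓ σ ≤
      F.sup' ⟨p₀, hp₀⟩ (fun x => σ ⊓ x) ⊔ (α ⊓ σ) :=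
    IsModularLattice.sup_inf_le_assoc_of_le α hxσ
  calc σ ⊓ F.sup' ⟨p₀, hp₀⟩ id ≤ (F.sup' ⟨p₀, hp₀⟩ (fun x => σ ⊓ x) ⊔ α) ⊓ σ :=
        le_inf h2 inf_le_left
    _ ≤ F.sup' ⟨p₀, hp₀⟩ (fun x => σ ⊓ x) ⊔ (α ⊓ σ) := h5
    _ ≤ F.sup' ⟨p₀, hp₀⟩ (fun x => σ ⊓ x) := sup_le le_rfl (by rw [inf_comm]; exact hσα)

end Interval

variable {S : Type u} [Ring S] (T : Set (PP S × PP S))

instance : OrderBot (ppLattice T) where
  bot := toL T (PP.bot S)
  bot_le := by
    intro x M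
    show (PP.bot S).sol M.1 ≤ x.1 M
    rw [PP.sol_bot]
    exact bot_le

/-- A wide subposet of the pp lattice of a definable class whose finite joins distribute over
meets gives a superdecomposable pure-injective module in the class. -/
theorem exists_superdecomposable_of_distributes {P : Set (ppLattice T)} (hP : IsWide P)
    (hd : Distributes P) :
    HasSuperdecomposable T := by
  obtain ⟨p, hup, hinf, hne, hproper, hsplit⟩ := exists_filter_of_distributes hP hd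
  exact exists_superdecomposable_of_filter T hup hinf hne hproper hsplit

end Pool.Agent.Helper10.Width
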