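import Pool.Agent.Helper10.Width.Realize

/-!
# The hull of an element of a compact module, and superdecomposability
-/

universe u v w

namespace Pool.Agent.Helper10.Width

variable {S : Type u} [Ring S]

variable {N : Type v} [AddCommGroup N] [Module S N] [TopologicalSpace N] [CompactSpace N]
  [T2Space N] [ContinuousAdd N] [ContinuousConstSMul S N]

omit [CompactSpace N] [ContinuousAdd N] [ContinuousConstSMul S N] [AddCommGroup N] [Module S N] in
/-- Ellis' lemma for closed semigroups of maps. -/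
theorem exists_idempotent_map (E : Set (N → N)) (hne : E.Nonempty) (hc : IsCompact E)
    (hmul : ∀ s ∈ E, ∀ t ∈ E, s ∘ t ∈ E) : ∃ e ∈ E, e ∘ e = e := by
  let : Semigroup (N → N) :=
    { mul := fun s t => s ∘ t
      mul_assoc := fun s t r => rfl }
  exact exists_idempotent_in_compact_subsemigroup
    (fun r => continuous_pi fun x => continuous_apply (r x)) E hne hc hmul

/-- The functions which are homomorphisms of modules. -/
def IsLin (S : Type u) [Ring S] {N : Type v} [AddCommGroup N] [Module S N] (t : N → N) : Prop :=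
  (∀ x y, t (x + y) = t x + t y) ∧ ∀ (s : S) x, t (s • x) = s • t x

/-- The homomorphism given by a function. -/
def IsLin.toLin {N : Type v} [AddCommGroup N] [Module S N] {t : N → N} (h : IsLin S t) :
    N →ₗ[S] N := ⟨⟨t, h.1⟩, h.2⟩

theorem IsLin.comp {N : Type v} [AddCommGroup N] [Module S N] {s t : N → N} (h : IsLin S s)
    (h' : IsLin S t) : IsLin S (s ∘ t) :=
  ⟨fun x y => by simp only [Function.comp_apply, h'.1, h.1],
    fun r x => by simp only [Function.comp_apply, h'.2, h.2]⟩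

theorem isLin_coe {N : Type v} [AddCommGroup N] [Module S N] (t : N →ₗ[S] N) :
    IsLin S (t : N → N) := ⟨t.map_add, t.map_smul⟩

omit [CompactSpace N] in
theorem isClosed_isLin : IsClosed {t : N → N | IsLin S t} := by
  unfold IsLin
  have h1 : IsClosed {t : N → N | ∀ x y, t (x + y) = t x + t y} := by
    simp only [Set.ofPred_forall]
    exact isClosed_iInter fun x => isClosed_iInter fun y => isClosed_eq (continuous_apply _)
      ((continuous_apply x).add (continuous_apply y))
  have h2 : IsClosed {t : N → N | ∀ (s : S) x, t (s • x) = s • t x} := by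
    simp only [Set.ofPred_forall]
    exact isClosed_iInter fun s => isClosed_iInter fun x => isClosed_eq (continuous_apply _)
      ((continuous_apply x).const_smul s)
  exact h1.inter h2

/-- The hull of an element: an idempotent endomorphism with maximal kernel among the endomorphisms
fixing the element. -/
theorem exists_hull (m : N) : ∃ e : N →ₗ[S] N, (∀ x, e (e x) = e x) ∧ e m = m ∧
    ∀ t : N →ₗ[S] N, t m = m → (∀ x, e x = 0 → t x = 0) → ∀ x, t x = 0 → e x = 0 := by
  classical
  let Λ : Set N → Set (N → N) := fun K => {t | IsLin S t ∧ t m = m ∧ ∀ x ∈ K, t x = 0}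
  have hΛc : ∀ K, IsClosed (Λ K) := by
    intro K
    have h3 : IsClosed {t : N → N | ∀ x ∈ K, t x = 0} := by
      simp only [Set.ofPred_forall]
      exact isClosed_iInter fun x => isClosed_iInter fun _ =>
        isClosed_eq (continuous_apply x) continuous_const
    exact isClosed_isLin.inter
      (IsClosed.inter (isClosed_eq (continuous_apply m) continuous_const) h3)
  have hΛanti : ∀ {K K' : Set N}, K ⊆ K' → Λ K' ⊆ Λ K := fun h t ht =>
    ⟨ht.1, ht.2.1, fun x hx => ht.2.2 x (h hx)⟩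
  obtain ⟨K, -, hK⟩ := zorn_subset_nonempty {K : Set N | (Λ K).Nonempty} (by
    intro c hc hchain hne
    have : Nonempty c := hne.to_subtype
    refine ⟨⋃₀ c, ?_, fun s hs => Set.subset_sUnion_of_mem hs⟩
    obtain ⟨t, ht⟩ := IsCompact.nonempty_iInter_of_directed_nonempty_isCompact_isClosed
      (fun K : c => Λ K.1) (by
        intro K K'
        rcases hchain.total K.2 K'.2 with h | h
        · exact ⟨K', hΛanti h, subset_rfl⟩
        · exact ⟨K, subset_rfl, hΛanti h⟩) (fun K => hc K.2) (fun K => (hΛc K.1).isCompact)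
      (fun K => hΛc K.1)
    rw [Set.mem_iInter] at ht
    obtain ⟨K₀⟩ := this
    refine ⟨t, (ht K₀).1, (ht K₀).2.1, ?_⟩
    rintro x ⟨K, hK, hx⟩
    exact (ht ⟨K, hK⟩).2.2 x hx) ∅ ⟨id, ⟨fun _ _ => rfl, fun _ _ => rfl⟩, rfl, by simp⟩
  have hKmax : ∀ t ∈ Λ K, ∀ x, t x = 0 → x ∈ K := by
    intro t ht x hx
    have h1 : K ⊆ {x | t x = 0} := fun x hx => ht.2.2 x hx
    have h2 : {x | t x = 0} ∈ {K : Set N | (Λ K).Nonempty} := ⟨t, ht.1, ht.2.1, fun x hx => hx⟩
    exact hK.2 h2 h1 hx
  obtain ⟨e, he, hee⟩ := exists_idempotent_map (Λ K) hK.1 (hΛc K).isCompact (by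
    intro s hs t ht
    refine ⟨hs.1.comp ht.1, by rw [Function.comp_apply, ht.2.1, hs.2.1], fun x hx => ?_⟩
    rw [Function.comp_apply, ht.2.2 x hx]
    exact map_zero hs.1.toLin)
  refine ⟨he.1.toLin, fun x => congrFun hee x, he.2.1, fun t htm hker x hx => ?_⟩
  refine he.2.2 x (hKmax t ⟨isLin_coe t, htm, fun y hy => hker y ?_⟩ x hx)
  exact he.2.2 y hy

/-- The main step: a filter of pp conditions without large elements gives a superdecomposable
hull. -/
theorem superdecomposable_hull {T : Set (PP S × PP S)} {p : Set (PP S)} {m : N}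
    (hm : ∀ φ : PP S, m ∈ φ.sol N ↔ φ ∈ p) (hp : IsPPFilter T p)
    (himp : ∀ φ ψ : PP S, Imp T φ ψ → φ.sol N ≤ ψ.sol N) (hproper : ∃ ψ, ψ ∉ p)
    (hsplit : ∀ ψ, ψ ∉ p → ∃ ψ₁ ψ₂, ψ₁ ∉ p ∧ ψ₂ ∉ p ∧ Imp T ψ ψ₁ ∧ Imp T ψ ψ₂ ∧
      ∀ σ ∈ p, (σ.inf ψ₁).sup (σ.inf ψ₂) ∈ p)
    (e : N →ₗ[S] N) (hee : ∀ x, e (e x) = e x) (hem : e m = m)
    (hull : ∀ t : N →ₗ[S] N, t m = m → (∀ x, e x = 0 → t x = 0) → ∀ x, t x = 0 → e x = 0) :
    Superdecomposable S (LinearMap.range e) := by
  classical
  constructor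
  · obtain ⟨ψ, hψ⟩ := hproper
    refine ⟨⟨⟨m, ⟨m, hem⟩⟩, 0, fun h => hψ ((hm ψ).mp ?_)⟩⟩
    have : m = 0 := congrArg Subtype.val h
    rw [this]
    exact (ψ.sol N).zero_mem
  intro A B hAB hA
  -- the projection and the inclusion
  let j : A →ₗ[S] N := (LinearMap.range e).subtype ∘ₗ A.subtype
  let q : N →ₗ[S] A := A.projectionOnto B hAB ∘ₗ e.rangeRestrict
  have hj : Function.Injective j := fun x y h => Subtype.ext (Subtype.ext h)
  have hej : ∀ a, e (j a) = j a := by
    intro a
    obtain ⟨x, hx⟩ := a.1.2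
    show e (a.1 : N) = a.1
    rw [← hx, hee]
  have hqj : ∀ a, q (j a) = a := by
    intro a
    have h1 : e.rangeRestrict (j a) = a.1 := Subtype.ext (hej a)
    show A.projectionOnto B hAB (e.rangeRestrict (j a)) = a
    rw [h1]
    exact Submodule.projectionOnto_apply_left hAB a
  have hqe : ∀ x, e x = 0 → q x = 0 := by
    intro x hx
    have h1 : e.rangeRestrict x = 0 := Subtype.ext hx
    show A.projectionOnto B hAB (e.rangeRestrict x) = 0
    rw [h1, map_zero]
  let e₁ : N →ₗ[S] N := j ∘ₗ q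
  have he₁ : ∀ x, e₁ x = j (q x) := fun x => rfl
  have he₁₁ : ∀ x, e₁ (e₁ x) = e₁ x := fun x => by rw [he₁, he₁, hqj]
  set ε : N := e₁ m with hε
  have hε₁ : e₁ ε = ε := he₁₁ m
  by_cases hcase : ∀ φ : PP S, m - ε ∈ φ.sol N → φ ∈ p
  · -- the complementary component has the whole type
    obtain ⟨h, hh⟩ := exists_hom_of_pp (S := S) (N := N) (m - ε) m
      (fun φ hφ => (hm φ).mpr (hcase φ hφ))
    have hnt := hA.1
    obtain ⟨a, ha⟩ := exists_ne (0 : A)
    have h1 := hull (e ∘ₗ h ∘ₗ (e - e₁)) (by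
      show e (h (e m - e₁ m)) = m
      rw [hem, ← hε, hh, hem]) (by
      intro x hx
      show e (h (e x - e₁ x)) = 0
      rw [hx, he₁, hqe x hx, map_zero, sub_zero, map_zero, map_zero]) (j a) (by
      show e (h (e (j a) - e₁ (j a))) = 0
      rw [hej, he₁, hqj, sub_self, map_zero, map_zero])
    rw [hej] at h1
    exact ha (hj (by rw [h1, map_zero]))
  · push Not at hcase
    obtain ⟨ψ, hψm, hψ⟩ := hcase
    obtain ⟨ψ₁, ψ₂, hψ₁, hψ₂, himp₁, himp₂, hspl⟩ := hsplit ψ hψ
    have hle₁ := himp ψ ψ₁ himp₁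
    have hle₂ := himp ψ ψ₂ himp₂
    -- the element `c`
    obtain ⟨c, hc⟩ : ∃ c : N, ∀ σ ∈ p, c ∈ (σ.inf ψ₁).sol N ∧ m - c ∈ (σ.inf ψ₂).sol N := by
      have : Nonempty p := hp.nonempty.to_subtype
      have hcl : ∀ σ : p, IsClosed {c : N | c ∈ (σ.1.inf ψ₁).sol N ∧
          m - c ∈ (σ.1.inf ψ₂).sol N} := by
        intro σ
        have h4 : IsClosed {c : N | m - c ∈ (σ.1.inf ψ₂).sol N} := by
          have h5 : Continuous (fun c : N => m + (-1 : S) • c) :=
            continuous_const.add (continuous_id.const_smul _)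
          have h6 : (fun c : N => m + (-1 : S) • c) = fun c => m - c := by
            funext c
            rw [neg_smul, one_smul, sub_eq_add_neg]
          rw [h6] at h5
          exact (isClosed_sol (N := N) (σ.1.inf ψ₂)).preimage h5
        exact IsClosed.inter (isClosed_sol (N := N) (σ.1.inf ψ₁)) h4
      obtain ⟨c, hc⟩ := IsCompact.nonempty_iInter_of_directed_nonempty_isCompact_isClosed
        (fun σ : p => {c : N | c ∈ (σ.1.inf ψ₁).sol N ∧ m - c ∈ (σ.1.inf ψ₂).sol N}) (by
          intro σ σ'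
          refine ⟨⟨σ.1.inf σ'.1, hp.inf _ σ.2 _ σ'.2⟩, ?_, ?_⟩
          · rintro c ⟨h1, h2⟩
            simp only [PP.sol_inf, AddSubgroup.mem_inf] at h1 h2
            refine ⟨?_, ?_⟩
            · rw [PP.sol_inf]; exact ⟨h1.1.1, h1.2⟩
            · rw [PP.sol_inf]; exact ⟨h2.1.1, h2.2⟩
          · rintro c ⟨h1, h2⟩
            simp only [PP.sol_inf, AddSubgroup.mem_inf] at h1 h2
            refine ⟨?_, ?_⟩
            · rw [PP.sol_inf]; exact ⟨h1.1.2, h1.2⟩
            · rw [PP.sol_inf]; exact ⟨h2.1.2, h2.2⟩) (by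
          intro σ
          have h1 := (hm _).mpr (hspl σ.1 σ.2)
          rw [PP.sol_sup, AddSubgroup.mem_sup] at h1
          obtain ⟨c, hc, d, hd, hcd⟩ := h1
          refine ⟨c, hc, ?_⟩
          rw [← hcd, add_sub_cancel_left]
          exact hd) (fun σ => (hcl σ).isCompact) hcl
      rw [Set.mem_iInter] at hc
      exact ⟨c, fun σ hσ => hc ⟨σ, hσ⟩⟩
    have hcp : ∀ σ ∈ p, c ∈ σ.sol N := fun σ hσ => by
      have := (hc σ hσ).1
      rw [PP.sol_inf] at this
      exact this.1
    obtain ⟨σ₀, hσ₀⟩ := hp.nonempty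
    have hc₁ : c ∈ ψ₁.sol N := by
      have := (hc σ₀ hσ₀).1
      rw [PP.sol_inf] at this
      exact this.2
    have hc₂ : m - c ∈ ψ₂.sol N := by
      have := (hc σ₀ hσ₀).2
      rw [PP.sol_inf] at this
      exact this.2
    obtain ⟨F, hF⟩ := exists_hom_of_pp (S := S) (N := N) m c (fun φ hφ => hcp φ ((hm φ).mp hφ))
    -- the semigroup
    let E : Set (N → N) := {s | IsLin S s ∧ (∀ x, s (e₁ x) = s x) ∧ s ε ∈ ψ₁.sol N ∧
      s ε - ε ∈ ψ₂.sol N}
    have hEc : IsClosed E := by
      have h3 : IsClosed {s : N → N | ∀ x, s (e₁ x) = s x} := by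
        simp only [Set.ofPred_forall]
        exact isClosed_iInter fun x => isClosed_eq (continuous_apply _) (continuous_apply _)
      refine isClosed_isLin.inter (IsClosed.inter h3 (IsClosed.inter ?_ ?_))
      · exact (isClosed_sol (N := N) ψ₁).preimage (continuous_apply ε)
      · have h5 : Continuous (fun s : N → N => s ε + -ε) :=
          (continuous_apply ε).add continuous_const
        simp only [← sub_eq_add_neg] at h5
        exact (isClosed_sol (N := N) ψ₂).preimage h5
    have hEne : E.Nonempty := by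
      refine ⟨e₁ ∘ₗ F ∘ₗ e₁, isLin_coe _, fun x => ?_, ?_, ?_⟩
      · show e₁ (F (e₁ (e₁ x))) = e₁ (F (e₁ x))
        rw [he₁₁]
      · show e₁ (F (e₁ ε)) ∈ ψ₁.sol N
        rw [hε₁]
        refine ψ₁.map_sol e₁ ?_
        have h1 : F ε = c - F (m - ε) := by rw [map_sub, hF]; abel
        rw [h1]
        exact sub_mem hc₁ (hle₁ (ψ.map_sol F hψm))
      · show e₁ (F (e₁ ε)) - ε ∈ ψ₂.sol N
        rw [hε₁]
        have h1 : e₁ (F ε) - ε = e₁ (-(m - c) - F (m - ε) + (m - ε)) := by
          have h2 : -(m - c) - F (m - ε) + (m - ε) = F ε - ε := by rw [map_sub, hF]; abel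
          rw [h2, map_sub, hε₁]
        rw [h1]
        refine ψ₂.map_sol e₁ ?_
        exact add_mem (sub_mem (neg_mem hc₂) (hle₂ (ψ.map_sol F hψm))) (hle₂ hψm)
    obtain ⟨s, ⟨hs, hs₁, hsψ₁, hsψ₂⟩, hss⟩ := exists_idempotent_map E hEne hEc.isCompact (by
      rintro s ⟨hs, hs₁, hsψ₁, hsψ₂⟩ t ⟨ht, ht₁, htψ₁, htψ₂⟩
      refine ⟨hs.comp ht, fun x => by rw [Function.comp_apply, ht₁, Function.comp_apply], ?_, ?_⟩
      · exact ψ₁.map_sol hs.toLin htψ₁
      · have h1 : (s ∘ t) ε - ε = hs.toLin (t ε - ε) + (s ε - ε) := by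
          rw [map_sub]
          show s (t ε) - ε = (s (t ε) - s ε) + (s ε - ε)
          abel
        rw [h1]
        exact add_mem (ψ₂.map_sol hs.toLin htψ₂) hsψ₂)
    have hss' : ∀ x, s (s x) = s x := fun x => congrFun hss x
    -- the idempotent endomorphism of `A`
    let f : A →ₗ[S] A := q ∘ₗ hs.toLin ∘ₗ j
    have hf : ∀ a, f a = q (s (j a)) := fun a => rfl
    have hff : ∀ a, f (f a) = f a := by
      intro a
      rw [hf (f a), hf a]
      have h1 : s (j (q (s (j a)))) = s (s (j a)) := hs₁ (s (j a))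
      rw [h1, hss']
    have hεq : j (q m) = ε := rfl
    have hmε : m = ε + (m - ε) := by abel
    have hcompl : IsCompl (LinearMap.range f) (LinearMap.ker f) := by
      constructor
      · rw [Submodule.disjoint_def]
        rintro x ⟨y, rfl⟩ hx
        rw [LinearMap.mem_ker, hff] at hx
        exact hx
      · rw [codisjoint_iff, eq_top_iff]
        intro x _
        rw [Submodule.mem_sup]
        refine ⟨f x, ⟨x, rfl⟩, x - f x, ?_, by abel⟩
        rw [LinearMap.mem_ker, map_sub, hff, sub_self]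
    rcases hA.2 _ _ hcompl with h0 | h1
    · -- `f = 0`
      have hf0 : f (q m) = 0 := by
        have : f (q m) ∈ LinearMap.range f := ⟨_, rfl⟩
        rw [h0] at this
        exact this
      have h2 : ε = -(e₁ (s ε - ε)) := by
        rw [map_sub, hε₁, he₁, ← hεq]
        rw [hf] at hf0
        rw [hf0, map_zero]
        abel
      refine hψ₂ ((hm ψ₂).mp ?_)
      rw [hmε]
      refine add_mem ?_ (hle₂ hψm)
      rw [h2]
      exact neg_mem (ψ₂.map_sol e₁ hsψ₂)
    · -- `f = id`
      have hf1 : f (q m) = q m := by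
        have h2 : f (q m) - q m ∈ LinearMap.ker f := by
          rw [LinearMap.mem_ker, map_sub, hff, sub_self]
        rw [h1] at h2
        exact sub_eq_zero.mp h2
      have h2 : ε = e₁ (s ε) := by
        rw [he₁]
        rw [hf, hεq] at hf1
        rw [hf1]
        exact hεq.symm
      refine hψ₁ ((hm ψ₁).mp ?_)
      rw [hmε]
      refine add_mem ?_ (hle₁ hψm)
      rw [h2]
      exact ψ₁.map_sol e₁ hsψ₁

end Pool.Agent.Helper10.Width
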