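import Pool.Agent.Helper10.Width.Hull

/-!
# Superdecomposable pure-injective modules from filters of pp conditions
-/

universe u v w

namespace Pool.Agent.Helper10.Width

variable {S : Type u} [Ring S]

/-- A filter of pp conditions in which no condition is large gives a superdecomposable
pure-injective module in the class. No countability is assumed. -/
theorem exists_superdecomposable {T : Set (PP S × PP S)} {p : Set (PP S)}
    (hp : IsPPFilter T p) (hproper : ∃ ψ, ψ ∉ p)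
    (hsplit : ∀ ψ, ψ ∉ p → ∃ ψ₁ ψ₂, ψ₁ ∉ p ∧ ψ₂ ∉ p ∧ Imp T ψ ψ₁ ∧ Imp T ψ ψ₂ ∧
      ∀ σ ∈ p, (σ.inf ψ₁).sup (σ.inf ψ₂) ∈ p) :
    HasSuperdecomposable T := by
  obtain ⟨M, hM, m₀, hm₀⟩ := exists_realization hp
  have hN : InClass T (Bidual M) := inClass_bidual hM
  have hm : ∀ φ : PP S, ev (S := S) m₀ ∈ φ.sol (Bidual M) ↔ φ ∈ p := fun φ =>
    ev_mem_sol.trans (hm₀ φ)
  obtain ⟨e, hee, hem, hull⟩ := exists_hull (S := S) (N := Bidual M) (ev (S := S) m₀)
  have hmem : ∀ x : LinearMap.range e, e x.1 = x.1 := by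
    rintro ⟨x, y, rfl⟩
    exact hee y
  refine ⟨ModuleCat.of S (LinearMap.range e), ?_, ?_, ?_⟩
  · intro q hq x hx
    have h1 : (x : Bidual M) ∈ q.1.sol (Bidual M) := q.1.map_sol (LinearMap.range e).subtype hx
    have h2 := q.2.map_sol e.rangeRestrict (hN q hq h1)
    have h3 : e.rangeRestrict (x : Bidual M) = x := Subtype.ext (hmem x)
    rw [h3] at h2
    exact h2
  · refine pureInjective_of_retract (N := Bidual M) (LinearMap.range e).subtype
      e.rangeRestrict ?_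
    exact LinearMap.ext fun x => Subtype.ext (hmem x)
  · exact superdecomposable_hull hm hp (fun φ ψ h => h ⟨ModuleCat.of S (Bidual M), hN⟩)
      hproper hsplit e hee hem hull

section Lattice

variable (T : Set (PP S × PP S))

/-- The element of the pp lattice given by a pp condition. -/
def toL (φ : PP S) : ppLattice T := ⟨fun M => φ.sol M.1, φ, rfl⟩

theorem toL_surjective : Function.Surjective (toL T) := by
  rintro ⟨_, φ, rfl⟩
  exact ⟨φ, rfl⟩

theorem toL_le {φ ψ : PP S} : toL T φ ≤ toL T ψ ↔ Imp T φ ψ := Iff.rfl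

theorem toL_inf (φ ψ : PP S) : toL T (φ.inf ψ) = toL T φ ⊓ toL T ψ :=
  Subtype.ext (funext fun M => PP.sol_inf φ ψ M.1)

theorem toL_sup (φ ψ : PP S) : toL T (φ.sup ψ) = toL T φ ⊔ toL T ψ :=
  Subtype.ext (funext fun M => PP.sol_sup φ ψ M.1)

instance : IsModularLattice (SubFun T) where
  sup_inf_le_assoc_of_le := by
    intro x y z hxz M
    exact IsModularLattice.sup_inf_le_assoc_of_le (y M) (hxz M)

instance : IsModularLattice (ppLattice T) where
  sup_inf_le_assoc_of_le := by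
    intro x y z hxz
    exact IsModularLattice.sup_inf_le_assoc_of_le (α := SubFun T) y.1 hxz

/-- The lattice version of `exists_superdecomposable`: if the pp lattice of a definable class has a
proper filter in which no element is large, then the class contains a superdecomposable
pure-injective module. -/
theorem exists_superdecomposable_of_filter {p : Set (ppLattice T)}
    (hup : ∀ x ∈ p, ∀ y, x ≤ y → y ∈ p) (hinf : ∀ x ∈ p, ∀ y ∈ p, x ⊓ y ∈ p)
    (hne : p.Nonempty) (hproper : ∃ x, x ∉ p)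
    (hsplit : ∀ x, x ∉ p → ∃ y z, y ∉ p ∧ z ∉ p ∧ x ≤ y ∧ x ≤ z ∧
      ∀ σ ∈ p, (σ ⊓ y) ⊔ (σ ⊓ z) ∈ p) :
    HasSuperdecomposable T := by
  refine exists_superdecomposable (T := T) (p := {φ | toL T φ ∈ p}) ⟨?_, ?_, ?_⟩ ?_ ?_
  · exact fun φ hφ ψ h => hup _ hφ _ h
  · intro φ hφ ψ hψ
    show toL T (φ.inf ψ) ∈ p
    rw [toL_inf]
    exact hinf _ hφ _ hψ
  · obtain ⟨x, hx⟩ := hne
    obtain ⟨φ, rfl⟩ := toL_surjective T x
    exact ⟨φ, hx⟩
  · obtain ⟨x, hx⟩ := hproper
    obtain ⟨φ, rfl⟩ := toL_surjective T x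
    exact ⟨φ, hx⟩
  · intro ψ hψ
    obtain ⟨y, z, hy, hz, hxy, hxz, h⟩ := hsplit (toL T ψ) hψ
    obtain ⟨ψ₁, rfl⟩ := toL_surjective T y
    obtain ⟨ψ₂, rfl⟩ := toL_surjective T z
    refine ⟨ψ₁, ψ₂, hy, hz, hxy, hxz, fun σ hσ => ?_⟩
    show toL T ((σ.inf ψ₁).sup (σ.inf ψ₂)) ∈ p
    rw [toL_sup, toL_inf, toL_inf]
    exact h _ hσ

end Lattice

end Pool.Agent.Helper10.Width
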