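import Pool.Agent.Helper10.Width.Dual

/-!
# Realizing a filter of pp conditions as the pp type of an element
-/

universe u v w

namespace Pool.Agent.Helper10.Width

variable {S : Type u} [Ring S]

section Reduced

variable {ι : Type v} (F : Filter ι) (M : ι → Type w) [∀ i, AddCommGroup (M i)]
  [∀ i, Module S (M i)]

/-- The functions which are eventually zero. -/
def eventuallyZero : Submodule S (∀ i, M i) where
  carrier := {f | ∀ᶠ i in F, f i = 0}
  add_mem' := by
    intro f g hf hg
    filter_upwards [hf, hg] with i h1 h2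
    rw [Pi.add_apply, h1, h2, add_zero]
  zero_mem' := Filter.Eventually.of_forall fun i => rfl
  smul_mem' := by
    intro s f hf
    filter_upwards [hf] with i h1
    rw [Pi.smul_apply, h1, smul_zero]

theorem mem_eventuallyZero {f : ∀ i, M i} :
    f ∈ eventuallyZero (S := S) F M ↔ ∀ᶠ i in F, f i = 0 := Iff.rfl

/-- pp conditions in reduced products. -/
theorem mem_sol_reduced (ψ : PP S) (f : ∀ i, M i) :
    (Submodule.Quotient.mk f : (∀ i, M i) ⧸ eventuallyZero (S := S) F M) ∈ ψ.sol _ ↔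
      ∀ᶠ i in F, f i ∈ ψ.sol (M i) := by
  classical
  constructor
  · rintro ⟨y, hy⟩
    choose g hg using fun j => Submodule.Quotient.mk_surjective
      (eventuallyZero (S := S) F M) (y j)
    have h1 : ∀ r, ∀ᶠ i in F, ψ.a r • f i + ∑ j, ψ.b r j • g j i = 0 := by
      intro r
      have h2 := hy r
      simp only [← hg] at h2
      have h3 : (Submodule.Quotient.mk (ψ.a r • f + ∑ j, ψ.b r j • g j) :
          (∀ i, M i) ⧸ eventuallyZero (S := S) F M) = 0 := by
        rw [← h2]
        rw [Submodule.Quotient.mk_add, Submodule.Quotient.mk_smul]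
        congr 1
        rw [← Submodule.mkQ_apply, map_sum]
        rfl
      rw [Submodule.Quotient.mk_eq_zero, mem_eventuallyZero] at h3
      filter_upwards [h3] with i hi
      simpa [Finset.sum_apply] using hi
    have h2 : ∀ᶠ i in F, ∀ r, ψ.a r • f i + ∑ j, ψ.b r j • g j i = 0 :=
      Filter.eventually_all.mpr h1
    filter_upwards [h2] with i hi
    exact ⟨fun j => g j i, hi⟩
  · intro h
    have h1 : ∀ i, ∃ y : Fin ψ.k → M i, f i ∈ ψ.sol (M i) →
        ∀ r, ψ.a r • f i + ∑ j, ψ.b r j • y j = 0 := by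
      intro i
      by_cases hi : f i ∈ ψ.sol (M i)
      · obtain ⟨y, hy⟩ := hi
        exact ⟨y, fun _ => hy⟩
      · exact ⟨0, fun h => absurd h hi⟩
    choose y hy using h1
    refine ⟨fun j => Submodule.Quotient.mk (fun i => y i j), fun r => ?_⟩
    have h3 : (Submodule.Quotient.mk (ψ.a r • f + ∑ j, ψ.b r j • (fun i => y i j)) :
        (∀ i, M i) ⧸ eventuallyZero (S := S) F M) = 0 := by
      rw [Submodule.Quotient.mk_eq_zero, mem_eventuallyZero]
      filter_upwards [h] with i hi
      have := hy i hi r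
      simpa [Finset.sum_apply] using this
    rw [← h3, Submodule.Quotient.mk_add, Submodule.Quotient.mk_smul]
    congr 1
    rw [← Submodule.mkQ_apply, map_sum]
    rfl

theorem inClass_reduced {T : Set (PP S × PP S)} (h : ∀ i, InClass T (M i)) :
    InClass T ((∀ i, M i) ⧸ eventuallyZero (S := S) F M) := by
  intro p hp x hx
  obtain ⟨f, rfl⟩ := Submodule.Quotient.mk_surjective _ x
  rw [mem_sol_reduced] at hx ⊢
  filter_upwards [hx] with i hi
  exact h i p hp hi

end Reduced

/-- Implication of pp conditions in the modules of a class. -/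
def Imp (T : Set (PP S × PP S)) (φ ψ : PP S) : Prop :=
  ∀ M : {M : ModuleCat.{u} S // InClass T M}, φ.sol M.1 ≤ ψ.sol M.1

theorem Imp.refl (T : Set (PP S × PP S)) (φ : PP S) : Imp T φ φ := fun _ => le_rfl

theorem Imp.trans {T : Set (PP S × PP S)} {φ ψ χ : PP S} (h : Imp T φ ψ) (h' : Imp T ψ χ) :
    Imp T φ χ := fun M => (h M).trans (h' M)

/-- A filter of pp conditions (modulo implication in the modules of a class). -/
structure IsPPFilter (T : Set (PP S × PP S)) (p : Set (PP S)) : Prop where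
  up : ∀ φ ∈ p, ∀ ψ, Imp T φ ψ → ψ ∈ p
  inf : ∀ φ ∈ p, ∀ ψ ∈ p, φ.inf ψ ∈ p
  nonempty : p.Nonempty

/-- Every filter of pp conditions is the pp type of an element of a module of the class. -/
theorem exists_realization {T : Set (PP S × PP S)} {p : Set (PP S)} (hp : IsPPFilter T p) :
    ∃ M : ModuleCat.{u} S, InClass T M ∧ ∃ m : M, ∀ φ : PP S, m ∈ φ.sol M ↔ φ ∈ p := by
  classical
  let I : Type u := {q : PP S × PP S // q.1 ∈ p ∧ ¬ Imp T q.1 q.2}
  have hI : ∀ q : I, ∃ (M : {M : ModuleCat.{u} S // InClass T M}) (x : M.1),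
      x ∈ q.1.1.sol M.1 ∧ x ∉ q.1.2.sol M.1 := by
    intro q
    have h := q.2.2
    unfold Imp at h
    push Not at h
    obtain ⟨M, hM⟩ := h
    obtain ⟨x, hx, hx'⟩ := Set.not_subset.mp hM
    exact ⟨M, x, hx, hx'⟩
  choose M x hx hx' using hI
  let F : Filter I :=
    { sets := {U | ∃ θ ∈ p, ∀ q : I, Imp T q.1.1 θ → q ∈ U}
      univ_sets := by
        obtain ⟨θ, hθ⟩ := hp.nonempty
        exact ⟨θ, hθ, fun q _ => Set.mem_univ q⟩
      sets_of_superset := by
        rintro U V ⟨θ, hθ, h⟩ hUV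
        exact ⟨θ, hθ, fun q hq => hUV (h q hq)⟩
      inter_sets := by
        rintro U V ⟨θ, hθ, h⟩ ⟨θ', hθ', h'⟩
        refine ⟨θ.inf θ', hp.inf θ hθ θ' hθ', fun q hq => ⟨h q ?_, h' q ?_⟩⟩
        · intro N
          refine (hq N).trans ?_
          rw [PP.sol_inf]
          exact inf_le_left
        · intro N
          refine (hq N).trans ?_
          rw [PP.sol_inf]
          exact inf_le_right }
  have hF : ∀ {U : Set I}, U ∈ F ↔ ∃ θ ∈ p, ∀ q : I, Imp T q.1.1 θ → q ∈ U := Iff.rfl
  refine ⟨ModuleCat.of S ((∀ q : I, (M q).1) ⧸ eventuallyZero (S := S) F fun q : I => (M q).1),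
    inClass_reduced F _ (fun q => (M q).2), Submodule.Quotient.mk x, fun φ => ?_⟩
  have key := mem_sol_reduced (S := S) F (fun q : I => (M q).1) φ x
  refine key.trans ?_
  constructor
  · intro h
    obtain ⟨θ, hθ, h⟩ := hF.mp h
    by_contra hφ
    have hq : ¬ Imp T θ φ := fun hi => hφ (hp.up θ hθ φ hi)
    exact hx' ⟨(θ, φ), hθ, hq⟩ (h ⟨(θ, φ), hθ, hq⟩ (Imp.refl T θ))
  · intro hφ
    exact hF.mpr ⟨φ, hφ, fun q hq => hq (M q) (hx q)⟩

end Pool.Agent.Helper10.Width
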